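import Pool.Agent.Helper10.BD.Goals
import Pool.Agent.Helper30.BC.EMP

/-! Packet LIFT of project BD (MP_eec6f5_gt). (helper15) -/

set_option autoImplicit false

open scoped ContDiff
open Pool.Agent.Helper50.BC Pool.Agent.Helper10.BD

namespace Pool.Agent.Helper15.BD.LIFT

/-- reindexing -/
noncomputable def R (q r j : ℕ) : E (r + (q + j)) →L[ℝ] E (q + r + j) :=
  (LinearIsometryEquiv.piLpCongrLeft 2 ℝ ℝ
    (finCongr (show r + (q + j) = q + r + j by omega))).toContinuousLinearEquiv.toContinuousLinearMap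

lemma R_norm (q r j : ℕ) (v : E (r + (q + j))) : ‖R q r j v‖ = ‖v‖ :=
  (LinearIsometryEquiv.piLpCongrLeft 2 ℝ ℝ
    (finCongr (show r + (q + j) = q + r + j by omega))).norm_map v

/-- the isometry -/
noncomputable def K (q r j : ℕ) : (E (q + j) × E r) →L[ℝ] E (q + r + j) :=
  (R q r j).comp (Pool.Agent.Helper30.BC.J r (q + j))

lemma K_norm (q r j : ℕ) (c : E (q + j)) (d : E r) :
    ‖K q r j (c, d)‖ ^ 2 = ‖c‖ ^ 2 + ‖d‖ ^ 2 := by
  rw [K, ContinuousLinearMap.comp_apply, R_norm, Pool.Agent.Helper30.BC.J_norm]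

theorem t : Pool.Agent.Helper10.BD.G_LIFT := by
  intro q r j Ψ σ a B b S hT ha haB hb hS hσ
  obtain ⟨hΨ, hT⟩ := hT
  let π : E q × E r × E j →L[ℝ] E q × E j :=
    (ContinuousLinearMap.fst ℝ (E q) (E r × E j)).prod
      ((ContinuousLinearMap.snd ℝ (E r) (E j)).comp (ContinuousLinearMap.snd ℝ (E q) (E r × E j)))
  let s : E q × E r × E j →L[ℝ] E r :=
    √a • ((ContinuousLinearMap.fst ℝ (E r) (E j)).comp
      (ContinuousLinearMap.snd ℝ (E q) (E r × E j)))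
  have hπ : ∀ ξ, π ξ = (ξ.1, ξ.2.2) := fun ξ => rfl
  have hs : ∀ ξ, s ξ = √a • ξ.2.1 := fun ξ => rfl
  have hs2 : ∀ ξ, ‖s ξ‖ ^ 2 = a * ‖ξ.2.1‖ ^ 2 := by
    intro ξ
    rw [hs, norm_smul, mul_pow, Real.norm_eq_abs, sq_abs, Real.sq_sqrt ha.le]
  let Kl : E (q + j) →L[ℝ] E (q + r + j) :=
    (K q r j).comp (ContinuousLinearMap.inl ℝ (E (q + j)) (E r))
  let M : (E q × E j →L[ℝ] E (q + j)) →L[ℝ] (E q × E r × E j →L[ℝ] E (q + r + j)) :=
    (ContinuousLinearMap.compL ℝ (E q × E r × E j) (E (q + j)) (E (q + r + j)) Kl).comp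
      ((ContinuousLinearMap.compL ℝ (E q × E r × E j) (E q × E j) (E (q + j))).flip π)
  have hM : ∀ L ξ, M L ξ = K q r j (L (π ξ), 0) := fun L ξ => rfl
  let N : E q × E r × E j →L[ℝ] E (q + r + j) :=
    (K q r j).comp ((ContinuousLinearMap.inr ℝ (E (q + j)) (E r)).comp s)
  have hN : ∀ ξ, N ξ = K q r j (0, s ξ) := fun ξ => rfl
  let Ψ' : E q × E r × E j → E (q + r + j) := fun p => K q r j (Ψ (π p), s p)
  have hΨ1 : ContDiff ℝ ∞ (fderiv ℝ Ψ) := hΨ.fderiv_right (m := ∞) (by simp)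
  have h1 : ∀ p, HasFDerivAt Ψ' (M (fderiv ℝ Ψ (π p)) + N) p := by
    intro p
    have h0 : HasFDerivAt Ψ (fderiv ℝ Ψ (π p)) (π p) :=
      (hΨ.differentiable (by simp) _).hasFDerivAt
    have h2 : HasFDerivAt (fun p => Ψ (π p)) ((fderiv ℝ Ψ (π p)).comp π) p :=
      h0.comp p π.hasFDerivAt
    have h3 := (K q r j).hasFDerivAt.comp p (h2.prodMk s.hasFDerivAt)
    refine HasFDerivAt.congr_fderiv (f := Ψ') h3 ?_
    refine ContinuousLinearMap.ext fun ξ => ?_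
    rw [_root_.add_apply, hM, hN, ← map_add, Prod.mk_add_mk, add_zero, zero_add]
    rfl
  have hf1 : fderiv ℝ Ψ' = fun p => M (fderiv ℝ Ψ (π p)) + N := funext fun p => (h1 p).fderiv
  have h2 : ∀ p, HasFDerivAt (fderiv ℝ Ψ')
      (M.comp ((fderiv ℝ (fderiv ℝ Ψ) (π p)).comp π)) p := by
    intro p
    rw [hf1]
    have h0 : HasFDerivAt (fderiv ℝ Ψ) (fderiv ℝ (fderiv ℝ Ψ) (π p)) (π p) :=
      (hΨ1.differentiable (by simp) _).hasFDerivAt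
    have h2 : HasFDerivAt (fun p => fderiv ℝ Ψ (π p))
        ((fderiv ℝ (fderiv ℝ Ψ) (π p)).comp π) p := h0.comp p π.hasFDerivAt
    exact (M.hasFDerivAt.comp p h2).add_const N
  have e1 : ∀ p ξ, fderiv ℝ Ψ' p ξ = K q r j (fderiv ℝ Ψ (π p) (ξ.1, ξ.2.2), s ξ) := by
    intro p ξ
    rw [hf1]
    change (M (fderiv ℝ Ψ (π p)) + N) ξ = _
    rw [_root_.add_apply, hM, hN, ← map_add, Prod.mk_add_mk, add_zero, zero_add, hπ ξ]
  have e2 : ∀ p ξ, fderiv ℝ (fderiv ℝ Ψ') p ξ ξ =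
      K q r j (fderiv ℝ (fderiv ℝ Ψ) (π p) (ξ.1, ξ.2.2) (ξ.1, ξ.2.2), 0) := by
    intro p ξ
    rw [(h2 p).fderiv]
    rfl
  refine ⟨Ψ', ?_, ?_⟩
  · exact (K q r j).contDiff.comp ((hΨ.comp π.contDiff).prodMk s.contDiff)
  · intro p hp1 hp2
    obtain ⟨t1, t2, t3, t4⟩ := hT (π p) hp1
    refine ⟨?_, ?_, ?_, ?_⟩
    · have h5 : ‖Ψ' p‖ ^ 2 ≤ S ^ 2 := by
        change ‖K q r j (Ψ (π p), s p)‖ ^ 2 ≤ S ^ 2
        rw [K_norm, hs2]
        nlinarith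
      exact (abs_le_of_sq_le_sq' h5 hS).2
    · intro ξ
      rw [e1, K_norm, hs2]
      have := t2 (ξ.1, ξ.2.2)
      simp only at this
      linarith
    · intro ξ
      rw [e1, K_norm, hs2]
      have := t3 (ξ.1, ξ.2.2)
      simp only at this
      nlinarith [sq_nonneg ‖ξ.2.1‖]
    · intro ξ
      rw [e2]
      have h6 := K_norm q r j (fderiv ℝ (fderiv ℝ Ψ) (π p) (ξ.1, ξ.2.2) (ξ.1, ξ.2.2)) 0
      rw [norm_zero, zero_pow two_ne_zero, add_zero] at h6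
      have h7 : ‖K q r j (fderiv ℝ (fderiv ℝ Ψ) (π p) (ξ.1, ξ.2.2) (ξ.1, ξ.2.2), 0)‖ =
          ‖fderiv ℝ (fderiv ℝ Ψ) (π p) (ξ.1, ξ.2.2) (ξ.1, ξ.2.2)‖ :=
        (sq_eq_sq₀ (norm_nonneg _) (norm_nonneg _)).1 h6
      rw [h7]
      have := t4 (ξ.1, ξ.2.2)
      simp only at this
      nlinarith [mul_nonneg hb (sq_nonneg ‖ξ.2.1‖)]

end Pool.Agent.Helper15.BD.LIFT
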